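import Pool.Agent.Helper3.FewP.Goals

/-! # STRIP-UNI: unisolvence of points on parallel lines (MP_d3128a_ag). -/

set_option autoImplicit false

namespace Pool.Agent.Helper48.FewP.UNI

open Pool.Agent.Helper3.FewP

variable {F : Type} [Field F]

/-- product of affine functions at a point. -/
def pr (l : List (F × F × F)) (x : ℤ × ℤ) : F :=
  (l.map fun t => t.1 * (x.2 : F) + t.2.1 * (x.1 : F) + t.2.2).prod

lemma pr_append (l l' : List (F × F × F)) (x : ℤ × ℤ) : pr (l ++ l') x = pr l x * pr l' x := by
  simp [pr]

lemma key (m : ℕ) (S : Finset (ℤ × ℤ)) (w : S → F)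
    (hw : ∀ a b : ℕ, a + b < m → ∑ x : S, w x * ((x.1.2 : F) ^ a * (x.1.1 : F) ^ b) = 0)
    (l : List (F × F × F)) :
    ∀ a b : ℕ, a + b + l.length < m →
      ∑ x : S, w x * ((x.1.2 : F) ^ a * (x.1.1 : F) ^ b) * pr l x.1 = 0 := by
  induction l with
  | nil =>
    intro a b h
    simpa [pr] using hw a b (by simpa using h)
  | cons t l ih =>
    intro a b h
    have h' : a + b + (l.length + 1) < m := by simpa using h
    have e1 := ih (a + 1) b (by omega)
    have e2 := ih a (b + 1) (by omega)
    have e3 := ih a b (by omega)
    have : ∑ x : S, w x * ((x.1.2 : F) ^ a * (x.1.1 : F) ^ b) * pr (t :: l) x.1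
        = t.1 * ∑ x : S, w x * ((x.1.2 : F) ^ (a + 1) * (x.1.1 : F) ^ b) * pr l x.1
          + t.2.1 * ∑ x : S, w x * ((x.1.2 : F) ^ a * (x.1.1 : F) ^ (b + 1)) * pr l x.1
          + t.2.2 * ∑ x : S, w x * ((x.1.2 : F) ^ a * (x.1.1 : F) ^ b) * pr l x.1 := by
      rw [Finset.mul_sum, Finset.mul_sum, Finset.mul_sum, ← Finset.sum_add_distrib,
        ← Finset.sum_add_distrib]
      refine Finset.sum_congr rfl fun x _ => ?_
      simp only [pr, List.map_cons, List.prod_cons]
      ring
    rw [this, e1, e2, e3]
    ring

/-- the set of the values of the lines with smaller index. -/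
def lines (P : ℤ) (S : Finset (ℤ × ℤ)) (idx : ℤ → ℕ) (x : ℤ × ℤ) : Finset ℤ :=
  (S.filter fun y => idx (y.1 - P * y.2) < idx (x.1 - P * x.2)).image fun y => y.1 - P * y.2

/-- the other points of the line. -/
def pts (P : ℤ) (S : Finset (ℤ × ℤ)) (x : ℤ × ℤ) : Finset (ℤ × ℤ) :=
  (S.filter fun y => y.1 - P * y.2 = x.1 - P * x.2).erase x

theorem t : G_UNI := by
  intro F _ _ m P S idx hm hinj hcard
  classical
  rw [Fintype.linearIndependent_iff]
  intro w hw
  have hw' : ∀ a b : ℕ, a + b < m →
      ∑ x : S, w x * ((x.1.2 : F) ^ a * (x.1.1 : F) ^ b) = 0 := by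
    intro a b hab
    have := congrFun hw ⟨(⟨a, by omega⟩, ⟨b, by omega⟩), hab⟩
    simpa [vec, Finset.sum_apply] using this
  have main : ∀ n : ℕ, ∀ x : S, m - idx (x.1.1 - P * x.1.2) = n → w x = 0 := by
    intro n
    induction n using Nat.strong_induction_on with
    | _ n ih =>
      intro x hx
      have hxm := hm x.1 x.2
      set l1 : List (F × F × F) :=
        ((lines P S idx x.1).toList.map fun c : ℤ => ((-(P : F), 1, -((c : ℤ) : F)) : F × F × F)) with hl1
      set l2 : List (F × F × F) :=
        ((pts P S x.1).toList.map fun y : ℤ × ℤ => ((1, 0, -((y.2 : ℤ) : F)) : F × F × F)) with hl2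
      have hc1 : l1.length ≤ idx (x.1.1 - P * x.1.2) := by
        rw [hl1, List.length_map, Finset.length_toList]
        have : (lines P S idx x.1).card ≤ (Finset.range (idx (x.1.1 - P * x.1.2))).card := by
          refine Finset.card_le_card_of_injOn idx ?_ ?_
          · intro c hc
            simp only [lines, Finset.coe_image, Finset.coe_filter, Set.mem_image,
              Set.mem_ofPred_eq] at hc
            obtain ⟨y, ⟨_, hy⟩, rfl⟩ := hc
            simpa using hy
          · intro c hc c' hc' h
            simp only [lines, Finset.coe_image, Finset.coe_filter, Set.mem_image,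
              Set.mem_ofPred_eq] at hc hc'
            obtain ⟨y, ⟨hyS, _⟩, rfl⟩ := hc
            obtain ⟨y', ⟨hyS', _⟩, rfl⟩ := hc'
            exact hinj y hyS y' hyS' h
        simpa using this
      have hxmem : x.1 ∈ S.filter fun y => y.1 - P * y.2 = x.1.1 - P * x.1.2 := by
        simp [x.2]
      have hc2 : l2.length + 1
          = (S.filter fun y => y.1 - P * y.2 = x.1.1 - P * x.1.2).card := by
        rw [hl2, List.length_map, Finset.length_toList, pts, Finset.card_erase_add_one hxmem]
      have hk := key m S w hw' (l1 ++ l2) 0 0 (by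
        have := hcard x.1 x.2
        rw [List.length_append]
        omega)
      have hp1 : ∀ y : ℤ × ℤ, pr l1 y
          = ∏ c ∈ lines P S idx x.1, ((y.1 : F) - P * y.2 - c) := by
        intro y
        rw [← Finset.prod_map_toList, pr, hl1, List.map_map]
        congr 1
        refine List.map_congr_left fun c _ => ?_
        simp only [Function.comp]
        ring
      have hp2 : ∀ y : ℤ × ℤ, pr l2 y = ∏ z ∈ pts P S x.1, ((y.2 : F) - z.2) := by
        intro y
        rw [← Finset.prod_map_toList, pr, hl2, List.map_map]
        congr 1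
        refine List.map_congr_left fun c _ => ?_
        simp only [Function.comp]
        ring
      have hsum : ∑ y : S, w y * ((y.1.2 : F) ^ 0 * (y.1.1 : F) ^ 0) * pr (l1 ++ l2) y.1
          = w x * pr (l1 ++ l2) x.1 := by
        rw [Finset.sum_eq_single x]
        · ring
        · intro y _ hyx
          have hne : y.1 ≠ x.1 := fun h => hyx (Subtype.ext h)
          rw [pr_append, hp1, hp2]
          rcases lt_trichotomy (idx (y.1.1 - P * y.1.2)) (idx (x.1.1 - P * x.1.2)) with h | h | h
          · have : ∏ c ∈ lines P S idx x.1, ((y.1.1 : F) - P * y.1.2 - c) = 0 := by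
              refine Finset.prod_eq_zero (i := y.1.1 - P * y.1.2) ?_ ?_
              · simp only [lines, Finset.mem_image, Finset.mem_filter]
                exact ⟨y.1, ⟨y.2, h⟩, rfl⟩
              · push_cast
                ring
            rw [this]
            ring
          · have hL := hinj y.1 y.2 x.1 x.2 h
            have : ∏ z ∈ pts P S x.1, ((y.1.2 : F) - z.2) = 0 := by
              refine Finset.prod_eq_zero (i := y.1) ?_ (by ring)
              simp only [pts, Finset.mem_erase, Finset.mem_filter]
              exact ⟨hne, y.2, hL⟩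
            rw [this]
            ring
          · have : w y = 0 := by
              refine ih (m - idx (y.1.1 - P * y.1.2)) ?_ y rfl
              omega
            rw [this]
            ring
        · intro h
          exact absurd (Finset.mem_univ x) h
      rw [hsum] at hk
      rcases mul_eq_zero.mp hk with h | h
      · exact h
      · exfalso
        rw [pr_append, hp1, hp2] at h
        rcases mul_eq_zero.mp h with h | h
        · rw [Finset.prod_eq_zero_iff] at h
          obtain ⟨c, hc, h0⟩ := h
          have : x.1.1 - P * x.1.2 = c := by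
            have h1 : ((x.1.1 - P * x.1.2 - c : ℤ) : F) = 0 := by
              push_cast
              exact h0
            have h2 := Int.cast_eq_zero.mp h1
            omega
          simp only [lines, Finset.mem_image, Finset.mem_filter] at hc
          obtain ⟨y, ⟨_, hlt⟩, hy⟩ := hc
          rw [hy, this] at hlt
          exact lt_irrefl _ hlt
        · rw [Finset.prod_eq_zero_iff] at h
          obtain ⟨z, hz, h0⟩ := h
          simp only [pts, Finset.mem_erase, Finset.mem_filter] at hz
          obtain ⟨hne, _, hL⟩ := hz
          have h1 : ((x.1.2 - z.2 : ℤ) : F) = 0 := by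
            push_cast
            exact h0
          have h2 : x.1.2 - z.2 = 0 := Int.cast_eq_zero.mp h1
          have h3 : x.1.2 = z.2 := by omega
          apply hne
          refine Prod.ext ?_ h3.symm
          rw [h3] at hL
          linarith
  intro i
  exact main _ i rfl

end Pool.Agent.Helper48.FewP.UNI
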